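import Pool.Agent.helper57.DH.SpecL

/-!
# Row d2:NMX (MP_5823cb_al, part L), helper67

The maximal function: from the explicit estimate `LNF` to the interface statement `NMX`.
-/

set_option autoImplicit false

open Filter Topology MeasureTheory
open scoped commutatorElement

namespace Pool.Agent.helper90.DH

open Pool.Agent.helper64.D2

theorem NMX_mem_cell (s : ℕ) (x : ℝ) : x ∈ cell s ⌊(2 : ℝ) ^ s * x⌋ := by
  have h2 : (0 : ℝ) < 2 ^ s := by positivity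
  have h := Int.floor_le ((2 : ℝ) ^ s * x)
  have h' := Int.lt_floor_add_one ((2 : ℝ) ^ s * x)
  refine ⟨?_, ?_⟩
  · rw [div_le_iff₀ h2]; linarith
  · rw [lt_div_iff₀ h2]; linarith

/-- `1 + w ≤ 2^LL w`. -/
theorem NMX_LL (w : ℕ) : (1 : ℝ) + w ≤ 2 ^ LL w := by
  have h : w < 2 ^ (Nat.log 2 w + 1) := Nat.lt_pow_succ_log_self (by norm_num) w
  have h' : w + 1 ≤ 2 ^ LL w := h
  have h'' : ((w + 1 : ℕ) : ℝ) ≤ ((2 ^ LL w : ℕ) : ℝ) := by exact_mod_cast h'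
  push_cast at h''
  linarith

theorem NMX_one_le_LL (w : ℕ) : 1 ≤ LL w := by unfold LL; omega

theorem NMX_Lg (K0 : ℝ) (hK : 1 ≤ K0) (w : ℕ) (hl : K0 / 2 ^ w ≤ 1 / 2) :
    0 ≤ Lg (K0 / 2 ^ w) ∧ Lg (K0 / 2 ^ w) ≤ 1 + w := by
  have hK0 : 0 < K0 := by linarith
  have h2 : (0 : ℝ) < 2 ^ w := by positivity
  have hlam : 0 < K0 / 2 ^ w := div_pos hK0 h2
  unfold Lg
  constructor
  · have h1 : 1 ≤ 1 / (K0 / 2 ^ w) := by
      rw [le_div_iff₀ hlam]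
      linarith
    have := Real.log_nonneg h1
    linarith
  · have e : 1 / (K0 / 2 ^ w) = 2 ^ w / K0 := by
      rw [one_div_div]
    rw [e, Real.log_div h2.ne' hK0.ne', Real.log_pow]
    have h3 : Real.log 2 ≤ 1 := by linarith [Real.log_two_lt_d9]
    have h4 : 0 ≤ Real.log K0 := Real.log_nonneg hK
    have h5 : (w : ℝ) * Real.log 2 ≤ w := by
      have : (0 : ℝ) ≤ w := Nat.cast_nonneg _
      nlinarith
    linarith

/-- The square of the gap with the loss. -/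
theorem NMX_sq (K0 : ℝ) (hK : 1 ≤ K0) (w : ℕ) (hl : K0 / 2 ^ w ≤ 1 / 2) :
    (K0 / 2 ^ w * Lg (K0 / 2 ^ w)) ^ 2 ≤ K0 ^ 2 * 4 ^ LL w / 4 ^ w := by
  have h := NMX_Lg K0 hK w hl
  have h2 : (0 : ℝ) < 2 ^ w := by positivity
  have hK0 : 0 < K0 := by linarith
  have h1 : Lg (K0 / 2 ^ w) ≤ 2 ^ LL w := h.2.trans (NMX_LL w)
  have e4 : (4 : ℝ) ^ w = (2 ^ w) ^ 2 := by
    rw [← pow_mul, mul_comm w 2, pow_mul]; norm_num
  have e4' : (4 : ℝ) ^ LL w = (2 ^ LL w) ^ 2 := by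
    rw [← pow_mul, mul_comm (LL w) 2, pow_mul]; norm_num
  calc (K0 / 2 ^ w * Lg (K0 / 2 ^ w)) ^ 2 ≤ (K0 / 2 ^ w * 2 ^ LL w) ^ 2 := by
        apply pow_le_pow_left₀
        · exact mul_nonneg (div_nonneg hK0.le h2.le) h.1
        · exact mul_le_mul_of_nonneg_left h1 (div_nonneg hK0.le h2.le)
    _ = K0 ^ 2 * 4 ^ LL w / 4 ^ w := by
        rw [e4, e4']
        field_simp

/-- **NMX**. -/
theorem NMX (hLNF : LNF_stmt) : NMX_stmt := by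
  intro K0 th r hK hth hr
  obtain ⟨e, A, hA, H⟩ := hLNF th r hth hr
  obtain ⟨n, hn⟩ := pow_unbounded_of_one_lt (2 * K0 + (r + 2) + 4 * 2 ^ e * (A * (K0 ^ 2 + 2)) + A * (K0 ^ 2 + 2)) (by norm_num : (1 : ℝ) < 2)
  have hK0 : 0 < K0 := by linarith
  have hAK : 0 ≤ A * (K0 ^ 2 + 2) := mul_nonneg hA (by positivity)
  have hAK' : 0 ≤ 4 * 2 ^ e * (A * (K0 ^ 2 + 2)) := mul_nonneg (by positivity) hAK
  refine ⟨n + e + 3, ?_⟩
  generalize ha : n + e + 3 = a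
  have han : (2 : ℝ) ^ n ≤ 2 ^ a := pow_le_pow_right₀ (by norm_num) (by omega)
  have ha1 : 2 * K0 ≤ (2 : ℝ) ^ a := by linarith
  have ha2 : r + 2 ≤ (2 : ℝ) ^ a := by linarith
  have ha3 : 4 * 2 ^ e * (A * (K0 ^ 2 + 2)) < (2 : ℝ) ^ a := by linarith
  have ha4 : A * (K0 ^ 2 + 2) ≤ (2 : ℝ) ^ a := by linarith
  intro w0 haw haL s0 N q c y hs0 hN hq hNI hGAP hPA hy0 hy2
  have hLL : 1 ≤ LL w0 := NMX_one_le_LL w0
  have haw2 : (2 : ℝ) ^ a ≤ 2 ^ w0 := pow_le_pow_right₀ (by norm_num) haw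
  have hlam0 : 0 < K0 / 2 ^ w0 := by positivity
  have hlam1 : K0 / 2 ^ w0 ≤ 1 / 2 := by
    rw [div_le_iff₀ (by positivity)]
    linarith
  have hsq := NMX_sq K0 hK w0 hlam1
  have hw1 : 1 ≤ w0 := by omega
  have hr2 : r + 2 ≤ 2 ^ w0 := ha2.trans haw2
  have hGAP' : ∀ s, s0 ≤ s → s < N + w0 + e → GAP q c s (K0 / 2 ^ w0) := fun s h1 h2 => hGAP s h1 (by omega)
  have hmain := fun S1 (hS1 : s0 ≤ S1) => H (K0 / 2 ^ w0) q c s0 w0 S1 N y hlam0 hlam1 hs0 (by omega) hw1 hr2 hS1 hN.le hNI hGAP' hPA hy0 hy2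
  -- powers
  have p4w : (0 : ℝ) < 4 ^ w0 := by positivity
  have p2s : (0 : ℝ) < 2 ^ s0 := by positivity
  have p2w : (0 : ℝ) < 2 ^ w0 := by positivity
  have e4w : (4 : ℝ) ^ w0 = 2 ^ w0 * 2 ^ w0 := by
    rw [← mul_pow]; norm_num
  have h16 : 1 / (16 : ℝ) ^ w0 ≤ 1 / 4 ^ w0 :=
    one_div_le_one_div_of_le p4w (pow_le_pow_left₀ (by norm_num) (by norm_num) _)
  have h4L : (1 : ℝ) ≤ 4 ^ LL w0 := one_le_pow₀ (by norm_num)
  refine ⟨?_, ?_⟩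
  · -- emptiness
    intro s hs hsN hsS
    rw [Set.eq_empty_iff_forall_notMem]
    intro x hx
    have hx' : x ∈ BdS q c s0 (s0 + w0) th y s := by
      rcases hx with h | h | h
      · exact Or.inl h
      · exact Or.inr (Or.inl h)
      · exfalso; omega
    have h1 := (hmain (s0 + w0) (by omega) ⌊(2 : ℝ) ^ (s0 - w0 - 4) * x⌋).1 s x hs hsN (NMX_mem_cell _ _) hx'
    have e1 : s0 + w0 - s0 = w0 := by omega
    rw [e1] at h1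
    have h2 : A * ((K0 / 2 ^ w0 * Lg (K0 / 2 ^ w0)) ^ 2 + 1 / 4 ^ w0 + 1 / 16 ^ w0) * (2 ^ w0 / 2 ^ s0) ≤
        A * ((K0 ^ 2 + 2) * 4 ^ LL w0 / 4 ^ w0) * (2 ^ w0 / 2 ^ s0) := by
      apply mul_le_mul_of_nonneg_right _ (by positivity)
      apply mul_le_mul_of_nonneg_left _ hA
      have h3 : 1 / (4 : ℝ) ^ w0 ≤ 4 ^ LL w0 / 4 ^ w0 := div_le_div_of_nonneg_right h4L p4w.le
      have e5 : (K0 ^ 2 + 2) * 4 ^ LL w0 / 4 ^ w0 = K0 ^ 2 * 4 ^ LL w0 / 4 ^ w0 + 4 ^ LL w0 / 4 ^ w0 + 4 ^ LL w0 / 4 ^ w0 := by ring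
      rw [e5]
      linarith
    have h3 := h1.trans h2
    have e6 : A * ((K0 ^ 2 + 2) * 4 ^ LL w0 / 4 ^ w0) * (2 ^ w0 / 2 ^ s0) =
        (A * (K0 ^ 2 + 2)) * 4 ^ LL w0 / (2 ^ w0 * 2 ^ s0) := by
      rw [e4w]
      field_simp
    rw [e6, div_le_div_iff₀ (by positivity) (by positivity)] at h3
    -- `2^w0 * 2^s0 ≤ A (K0^2+2) 4^L 2^s 2^e`
    have h4 : s + a * LL w0 ≤ s0 + w0 := by omega
    have h5 : (2 : ℝ) ^ (s + a * LL w0) ≤ 2 ^ (s0 + w0) := pow_le_pow_right₀ (by norm_num) h4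
    rw [pow_add, pow_add] at h5
    rw [pow_add] at h3
    have h6 : (2 : ℝ) ^ s * 2 ^ (a * LL w0) ≤ A * (K0 ^ 2 + 2) * 4 ^ LL w0 * (2 ^ s * 2 ^ e) := by
      calc (2 : ℝ) ^ s * 2 ^ (a * LL w0) ≤ 2 ^ s0 * 2 ^ w0 := h5
        _ = 1 * (2 ^ w0 * 2 ^ s0) := by ring
        _ ≤ _ := h3
    have p2ss : (0 : ℝ) < 2 ^ s := by positivity
    have h7 : (2 : ℝ) ^ (a * LL w0) ≤ 2 ^ e * (A * (K0 ^ 2 + 2)) * 4 ^ LL w0 := by
      have : (2 : ℝ) ^ s * 2 ^ (a * LL w0) ≤ 2 ^ s * (2 ^ e * (A * (K0 ^ 2 + 2)) * 4 ^ LL w0) := by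
        calc _ ≤ _ := h6
          _ = _ := by ring
      exact le_of_mul_le_mul_left this p2ss
    -- `2^(aL) = (2^a)^L`, and `2^a > 4 * C`
    obtain ⟨l, hl⟩ : ∃ l, LL w0 = l + 1 := ⟨LL w0 - 1, by omega⟩
    have e7 : (2 : ℝ) ^ (a * LL w0) = 2 ^ a * (2 ^ a) ^ l := by
      rw [pow_mul, hl, pow_succ]; ring
    have e8 : (4 : ℝ) ^ LL w0 = 4 * 4 ^ l := by
      rw [hl, pow_succ]; ring
    have h8 : (4 : ℝ) ^ l ≤ (2 ^ a) ^ l := by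
      apply pow_le_pow_left₀ (by norm_num)
      calc (4 : ℝ) = 2 ^ 2 := by norm_num
        _ ≤ 2 ^ a := pow_le_pow_right₀ (by norm_num) (by omega)
    rw [e7, e8] at h7
    have p4l : (0 : ℝ) < 4 ^ l := by positivity
    have h9 : (2 : ℝ) ^ a * 4 ^ l ≤ 2 ^ a * (2 ^ a) ^ l := mul_le_mul_of_nonneg_left h8 (by positivity)
    have h10 : 4 * 2 ^ e * (A * (K0 ^ 2 + 2)) * 4 ^ l < 2 ^ a * 4 ^ l := mul_lt_mul_of_pos_right ha3 p4l
    have e9 : (2 : ℝ) ^ e * (A * (K0 ^ 2 + 2)) * (4 * 4 ^ l) = 4 * 2 ^ e * (A * (K0 ^ 2 + 2)) * 4 ^ l := by ring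
    rw [e9] at h7
    linarith
  · -- measure
    intro κ
    have hS1 : s0 ≤ s0 + w0 - a * LL w0 := by omega
    refine ((hmain (s0 + w0 - a * LL w0) hS1 κ).2).trans ?_
    have e1 : s0 + w0 - a * LL w0 - s0 = w0 - a * LL w0 := by omega
    rw [e1]
    have e2 : 1 / (4 : ℝ) ^ (w0 - a * LL w0) = 4 ^ (a * LL w0) / 4 ^ w0 := by
      rw [div_eq_div_iff (by positivity) (by positivity), one_mul, ← pow_add]
      congr 1
      omega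
    rw [e2]
    have h4aL : (4 : ℝ) ^ LL w0 ≤ 4 ^ (a * LL w0) := by
      apply pow_le_pow_right₀ (by norm_num)
      have : 1 ≤ a := by omega
      nlinarith
    have h1 : A * ((K0 / 2 ^ w0 * Lg (K0 / 2 ^ w0)) ^ 2 + 4 ^ (a * LL w0) / 4 ^ w0 + 1 / 16 ^ w0) * (2 ^ w0 / 2 ^ s0) ≤
        A * ((K0 ^ 2 + 2) * 4 ^ (a * LL w0) / 4 ^ w0) * (2 ^ w0 / 2 ^ s0) := by
      apply mul_le_mul_of_nonneg_right _ (by positivity)
      apply mul_le_mul_of_nonneg_left _ hA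
      have h3 : 1 / (4 : ℝ) ^ w0 ≤ 4 ^ (a * LL w0) / 4 ^ w0 := div_le_div_of_nonneg_right (h4L.trans h4aL) p4w.le
      have h3' : K0 ^ 2 * 4 ^ LL w0 / 4 ^ w0 ≤ K0 ^ 2 * 4 ^ (a * LL w0) / 4 ^ w0 :=
        div_le_div_of_nonneg_right (mul_le_mul_of_nonneg_left h4aL (by positivity)) p4w.le
      have e5 : (K0 ^ 2 + 2) * 4 ^ (a * LL w0) / 4 ^ w0 =
          K0 ^ 2 * 4 ^ (a * LL w0) / 4 ^ w0 + 4 ^ (a * LL w0) / 4 ^ w0 + 4 ^ (a * LL w0) / 4 ^ w0 := by ring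
      rw [e5]
      linarith
    refine h1.trans ?_
    have e3 : (2 : ℝ) ^ s0 = 2 ^ (s0 - w0 - 4) * (16 * 2 ^ w0) := by
      have : s0 = (s0 - w0 - 4) + (4 + w0) := by omega
      calc (2 : ℝ) ^ s0 = 2 ^ ((s0 - w0 - 4) + (4 + w0)) := by rw [← this]
        _ = _ := by rw [pow_add, pow_add]; norm_num
    have e4 : (2 : ℝ) ^ (2 * w0) = 4 ^ w0 := by rw [pow_mul]; norm_num
    have e5 : (2 : ℝ) ^ (3 * a * LL w0) = 2 ^ (a * LL w0) * 4 ^ (a * LL w0) := by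
      rw [mul_assoc, pow_mul, ← mul_pow]; norm_num
    rw [e4, e5]
    have e6 : A * ((K0 ^ 2 + 2) * 4 ^ (a * LL w0) / 4 ^ w0) * (2 ^ w0 / 2 ^ s0) =
        (A * (K0 ^ 2 + 2)) / 16 * 4 ^ (a * LL w0) / 4 ^ w0 / 2 ^ (s0 - w0 - 4) := by
      rw [e3]
      field_simp
    rw [e6]
    apply div_le_div_of_nonneg_right _ (by positivity)
    apply div_le_div_of_nonneg_right _ (by positivity)
    apply mul_le_mul_of_nonneg_right _ (by positivity)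
    have h5 : (2 : ℝ) ^ a ≤ 2 ^ (a * LL w0) := by
      apply pow_le_pow_right₀ (by norm_num)
      nlinarith
    have h6 : A * (K0 ^ 2 + 2) / 16 ≤ A * (K0 ^ 2 + 2) := by linarith
    linarith

end Pool.Agent.helper90.DH
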