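import Pool.Agent.helper15.DH.Spec
import Pool.Agent.helper93.ED.WG
import Pool.Agent.helper59.DM.DV

/-!
# Project dh, module LVA
-/

set_option autoImplicit false

open Complex MeasureTheory

namespace Pool.Agent.DH

open Pool.Agent.helper84.DM Pool.Agent.helper78.ED

theorem LVA_PL (L : ℕ) (u : ℝ) : ‖PL (IL L) u‖ ≤ 7 * (L : ℝ) := by
  unfold PL
  refine (norm_sum_le _ _).trans ?_
  have h1 : ∀ l ∈ IL L, ‖(l : ℂ) ^ (-((u : ℂ) * I))‖ ≤ 1 := by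
    intro l hl
    have hl0 : 0 < l := by
      unfold IL at hl
      rw [Finset.mem_Ioc] at hl
      omega
    rw [Complex.norm_natCast_cpow_of_pos hl0]
    have h2 : (-((u : ℂ) * I)).re = 0 := by simp
    rw [h2, Real.rpow_zero]
  refine (Finset.sum_le_sum h1).trans ?_
  rw [Finset.sum_const, nsmul_eq_mul, mul_one]
  unfold IL
  rw [Nat.card_Ioc]
  have h3 : (8 * L - L : ℕ) = 7 * L := by omega
  rw [h3]
  push_cast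
  exact le_refl _

theorem LVA_cs (Z : Finset ℂ) (f g : ℂ → ℂ → ℝ) (X Y : ℝ)
    (hX : ∑ ρ ∈ Z, ∑ ρ' ∈ Z, f ρ ρ' ^ 2 ≤ X) (hY : ∑ ρ ∈ Z, ∑ ρ' ∈ Z, g ρ ρ' ^ 2 ≤ Y) :
    ∑ ρ ∈ Z, ∑ ρ' ∈ Z, f ρ ρ' * g ρ ρ' ≤ Real.sqrt (X * Y) := by
  have e1 : ∑ ρ ∈ Z, ∑ ρ' ∈ Z, f ρ ρ' * g ρ ρ' = ∑ p ∈ Z ×ˢ Z, f p.1 p.2 * g p.1 p.2 := by
    rw [Finset.sum_product]
  have e2 : ∑ ρ ∈ Z, ∑ ρ' ∈ Z, f ρ ρ' ^ 2 = ∑ p ∈ Z ×ˢ Z, f p.1 p.2 ^ 2 := by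
    rw [Finset.sum_product]
  have e3 : ∑ ρ ∈ Z, ∑ ρ' ∈ Z, g ρ ρ' ^ 2 = ∑ p ∈ Z ×ˢ Z, g p.1 p.2 ^ 2 := by
    rw [Finset.sum_product]
  rw [e1]
  rw [e2] at hX
  rw [e3] at hY
  have h := Finset.sum_mul_sq_le_sq_mul_sq (Z ×ˢ Z) (fun p => f p.1 p.2) (fun p => g p.1 p.2)
  apply Real.le_sqrt_of_sq_le
  refine h.trans ?_
  have h0 : 0 ≤ ∑ p ∈ Z ×ˢ Z, g p.1 p.2 ^ 2 := Finset.sum_nonneg (fun _ _ => sq_nonneg _)
  have h1 : 0 ≤ ∑ p ∈ Z ×ˢ Z, f p.1 p.2 ^ 2 := Finset.sum_nonneg (fun _ _ => sq_nonneg _)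
  exact mul_le_mul hX hY h0 (h1.trans hX)

theorem LVA_QQ_nonneg (Z : Finset ℂ) (L : ℕ) : 0 ≤ QQ Z L :=
  Finset.sum_nonneg (fun _ _ => Finset.sum_nonneg (fun _ _ => sq_nonneg _))

theorem LVA (hONE : ONE_stmt) (hRSQ : RSQ_stmt) (hNEAR : NEAR_stmt) (hQID : QID_stmt) :
    LVA_stmt := by
  intro ε hε
  obtain ⟨C₀, hC₀, hd⟩ := Pool.Agent.helper84.DM.divisor_bound (ε / 24) (by positivity)
  obtain ⟨C₁, hC₁, hS⟩ := SS_triv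
  obtain ⟨C₂, T₂, hC₂, hN⟩ := hNEAR (ε / 4) (by positivity)
  obtain ⟨C₃, T₃, hC₃, hR⟩ := hRSQ (ε / 2) (by positivity)
  refine ⟨Real.exp 16 * C₀ * (7 * C₁ * C₂ + Real.sqrt C₃), max 16 (max T₂ T₃), by positivity, ?_⟩
  intro T hT σ hσ Z hZ N L hN1 hL1 hNL hTL a A V hV ha hDP
  have hT16 : (16 : ℝ) ≤ T := le_trans (le_max_left _ _) hT
  have hTT2 : T₂ ≤ T := le_trans (le_trans (le_max_left _ _) (le_max_right _ _)) hT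
  have hTT3 : T₃ ≤ T := le_trans (le_trans (le_max_right _ _) (le_max_right _ _)) hT
  have hT0 : (0 : ℝ) < T := by linarith
  have hT1 : (1 : ℝ) ≤ T := by linarith
  have hNr : (1 : ℝ) ≤ N := by exact_mod_cast hN1
  have hLr : (1 : ℝ) ≤ L := by exact_mod_cast hL1
  have hNL1 : (1 : ℝ) ≤ (N : ℝ) * L := by nlinarith
  have h56 : 16 * T ^ (5 : ℕ) ≤ T ^ (6 : ℕ) := by
    have h0 : 0 ≤ T ^ (5 : ℕ) := by positivity
    calc 16 * T ^ (5 : ℕ) ≤ T * T ^ (5 : ℕ) := mul_le_mul_of_nonneg_right hT16 h0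
      _ = T ^ (6 : ℕ) := by ring
  have h5 : T ^ (5 : ℕ) ≤ T ^ (6 : ℕ) := by
    have h0 : 0 ≤ T ^ (5 : ℕ) := by positivity
    linarith
  have hQ0 := LVA_QQ_nonneg Z L
  -- the divisor bound
  have hD : ∀ k : ℕ, 1 ≤ k → k ≤ 16 * (N * L) → d k ≤ C₀ * T ^ (ε / 4) := by
    intro k hk1 hk
    refine (hd k hk1).trans ?_
    refine mul_le_mul_of_nonneg_left ?_ hC₀.le
    have h1 : (k : ℝ) ≤ T ^ (6 : ℕ) := by
      have h2 : (k : ℝ) ≤ 16 * ((N : ℝ) * L) := by exact_mod_cast hk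
      linarith
    calc (k : ℝ) ^ (ε / 24) ≤ (T ^ (6 : ℕ)) ^ (ε / 24) :=
          Real.rpow_le_rpow (by positivity) h1 (by positivity)
      _ = T ^ (ε / 4) := by
          rw [← Real.rpow_natCast, ← Real.rpow_mul hT0.le]
          congr 1
          push_cast
          ring
  have hone := hONE Z N L a V (C₀ * T ^ (ε / 4)) hN1 hL1 hV hD hDP
  -- sum of the coefficients
  have hA : ∑ n ∈ Finset.Ioc N (2 * N), ‖a n‖ ^ 2 ≤ (N : ℝ) * A ^ 2 := by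
    have h1 : ∀ n ∈ Finset.Ioc N (2 * N), ‖a n‖ ^ 2 ≤ A ^ 2 := fun n hn =>
      pow_le_pow_left₀ (norm_nonneg _) (ha n hn) 2
    refine (Finset.sum_le_sum h1).trans ?_
    rw [Finset.sum_const, nsmul_eq_mul, Nat.card_Ioc]
    have h3 : (2 * N - N : ℕ) = N := by omega
    rw [h3]
  -- differences
  have hdiff : ∀ ρ ∈ Z, ∀ ρ' ∈ Z, |ρ.im - ρ'.im| ≤ T := by
    intro ρ hρ ρ' hρ'
    obtain ⟨-, -, h1, h2⟩ := hZ ρ hρ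
    obtain ⟨-, -, h3, h4⟩ := hZ ρ' hρ'
    rw [abs_le]
    constructor <;> linarith
  -- far pairs
  have hLT : (L : ℝ) ≤ T ^ (6 : ℕ) := by
    have h1 : (L : ℝ) ≤ (N : ℝ) * L := by nlinarith
    linarith
  have hTe : T ^ (1 + ε / 2) ≤ (N : ℝ) * L * L :=
    (Real.rpow_le_rpow_of_exponent_le hT1 (by linarith)).trans hTL
  have hfar := hR T hTT3 Z hdiff ((N : ℝ) * L) L hNL1 (hNL.trans h5) hL1 hLT hTe (fun _ _ => 0)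
    (fun _ _ _ _ => ⟨le_refl _, zero_le_one⟩)
  set F : ℂ → ℂ → ℝ := fun ρ ρ' => if Real.log T ≤ |ρ.im - ρ'.im| then
    ‖SS ((N : ℝ) * L) 0 (ρ.im - ρ'.im)‖ else 0 with hF
  have hF2 : ∑ ρ ∈ Z, ∑ ρ' ∈ Z, F ρ ρ' ^ 2 ≤ C₃ * T ^ (ε / 2) * N * QQ Z L := by
    have h1 : ∑ ρ ∈ Z, ∑ ρ' ∈ Z, F ρ ρ' ^ 2 = ∑ ρ ∈ Z, ∑ ρ' ∈ Z,
        (if Real.log T ≤ |ρ.im - ρ'.im| then ‖SS ((N : ℝ) * L) 0 (ρ.im - ρ'.im)‖ ^ 2 else 0) := by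
      refine Finset.sum_congr rfl (fun ρ _ => Finset.sum_congr rfl (fun ρ' _ => ?_))
      simp only [hF]
      split_ifs
      · rfl
      · norm_num
    rw [h1]
    have h2 : C₃ * T ^ (ε / 2) * ((N : ℝ) * L) * QQ Z L =
        (L : ℝ) * (C₃ * T ^ (ε / 2) * N * QQ Z L) := by ring
    rw [h2] at hfar
    exact le_of_mul_le_mul_left hfar (by linarith)
  have hG2 : ∑ ρ ∈ Z, ∑ ρ' ∈ Z, ‖PL (IL L) (ρ.im - ρ'.im)‖ ^ 2 ≤ QQ Z L := (hQID Z L).ge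
  have hcs := LVA_cs Z F (fun ρ ρ' => ‖PL (IL L) (ρ.im - ρ'.im)‖) _ _ hF2 hG2
  have hsq : Real.sqrt (C₃ * T ^ (ε / 2) * N * QQ Z L * QQ Z L) =
      Real.sqrt C₃ * T ^ (ε / 4) * (N : ℝ) ^ (1 / 2 : ℝ) * QQ Z L := by
    have h1 : C₃ * T ^ (ε / 2) * N * QQ Z L * QQ Z L =
        (Real.sqrt C₃ * T ^ (ε / 4) * (N : ℝ) ^ (1 / 2 : ℝ) * QQ Z L) ^ 2 := by
      have h2 : Real.sqrt C₃ ^ 2 = C₃ := Real.sq_sqrt hC₃.le
      have h3 : (T ^ (ε / 4)) ^ 2 = T ^ (ε / 2) := by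
        rw [← Real.rpow_natCast, ← Real.rpow_mul hT0.le]
        congr 1
        push_cast
        ring
      have h4 : ((N : ℝ) ^ (1 / 2 : ℝ)) ^ 2 = N := by
        rw [← Real.rpow_natCast, ← Real.rpow_mul (by linarith)]
        norm_num
      calc C₃ * T ^ (ε / 2) * N * QQ Z L * QQ Z L
          = Real.sqrt C₃ ^ 2 * (T ^ (ε / 4)) ^ 2 * ((N : ℝ) ^ (1 / 2 : ℝ)) ^ 2 * QQ Z L ^ 2 := by
            rw [h2, h3, h4]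
            ring
        _ = _ := by ring
    rw [h1]
    refine Real.sqrt_sq ?_
    have h5 : 0 ≤ T ^ (ε / 4) := Real.rpow_nonneg hT0.le _
    have h6 : 0 ≤ (N : ℝ) ^ (1 / 2 : ℝ) := Real.rpow_nonneg (by linarith) _
    exact mul_nonneg (mul_nonneg (mul_nonneg (Real.sqrt_nonneg _) h5) h6) hQ0
  rw [hsq] at hcs
  -- near pairs
  have hnear : ∑ ρ ∈ Z, ∑ ρ' ∈ Z, (if |ρ.im - ρ'.im| < Real.log T then (1 : ℝ) else 0) *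
      (C₁ * ((N : ℝ) * L) * (7 * L)) ≤ C₂ * T ^ (ε / 4) * (Z.card : ℝ) *
        (C₁ * ((N : ℝ) * L) * (7 * L)) := by
    have h1 := hN T hTT2 σ hσ Z hZ
    have h2 : ∑ ρ ∈ Z, ∑ ρ' ∈ Z, (if |ρ.im - ρ'.im| < Real.log T then (1 : ℝ) else 0) *
      (C₁ * ((N : ℝ) * L) * (7 * L)) =
      (∑ ρ ∈ Z, ∑ ρ' ∈ Z, (if |ρ.im - ρ'.im| < Real.log T then (1 : ℝ) else 0)) *
      (C₁ * ((N : ℝ) * L) * (7 * L)) := by
      rw [Finset.sum_mul]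
      refine Finset.sum_congr rfl (fun ρ _ => ?_)
      rw [Finset.sum_mul]
    rw [h2]
    exact mul_le_mul_of_nonneg_right h1 (by positivity)
  -- all pairs
  have hall : ∑ ρ ∈ Z, ∑ ρ' ∈ Z, ‖SS ((N : ℝ) * L) 0 (ρ.im - ρ'.im)‖ *
      ‖PL (IL L) (ρ.im - ρ'.im)‖ ≤
      C₂ * T ^ (ε / 4) * (Z.card : ℝ) * (C₁ * ((N : ℝ) * L) * (7 * L)) +
      Real.sqrt C₃ * T ^ (ε / 4) * (N : ℝ) ^ (1 / 2 : ℝ) * QQ Z L := by
    refine le_trans ?_ (add_le_add hnear hcs)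
    rw [← Finset.sum_add_distrib]
    refine Finset.sum_le_sum (fun ρ _ => ?_)
    rw [← Finset.sum_add_distrib]
    refine Finset.sum_le_sum (fun ρ' _ => ?_)
    have hs1 := hS ((N : ℝ) * L) 0 (ρ.im - ρ'.im) hNL1 (le_refl _)
    have hp1 := LVA_PL L (ρ.im - ρ'.im)
    by_cases hlt : |ρ.im - ρ'.im| < Real.log T
    · have hnot : ¬ Real.log T ≤ |ρ.im - ρ'.im| := not_le.mpr hlt
      simp only [hF, if_pos hlt, if_neg hnot, one_mul, zero_mul, add_zero]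
      exact mul_le_mul hs1 hp1 (norm_nonneg _) (by positivity)
    · have hyes : Real.log T ≤ |ρ.im - ρ'.im| := not_lt.mp hlt
      simp only [hF, if_neg hlt, if_pos hyes, zero_mul, zero_add]
      exact le_refl _
  -- assembly
  set S0 := ∑ ρ ∈ Z, ∑ ρ' ∈ Z, ‖SS ((N : ℝ) * L) 0 (ρ.im - ρ'.im)‖ *
      ‖PL (IL L) (ρ.im - ρ'.im)‖ with hS0
  have hS00 : 0 ≤ S0 := Finset.sum_nonneg (fun _ _ => Finset.sum_nonneg (fun _ _ =>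
    mul_nonneg (norm_nonneg _) (norm_nonneg _)))
  have hTq : 0 < T ^ (ε / 4) := Real.rpow_pos_of_pos hT0 _
  have hN32 : (N : ℝ) * (N : ℝ) ^ (1 / 2 : ℝ) = (N : ℝ) ^ (3 / 2 : ℝ) := by
    have h1 : (N : ℝ) * (N : ℝ) ^ (1 / 2 : ℝ) = (N : ℝ) ^ (1 : ℝ) * (N : ℝ) ^ (1 / 2 : ℝ) := by
      rw [Real.rpow_one]
    rw [h1, ← Real.rpow_add (by linarith)]
    norm_num
  have hN320 : 0 ≤ (N : ℝ) ^ (3 / 2 : ℝ) := Real.rpow_nonneg (by linarith) _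
  have hTT : T ^ (ε / 4) * T ^ (ε / 4) ≤ T ^ ε := by
    rw [← Real.rpow_add hT0]
    exact Real.rpow_le_rpow_of_exponent_le hT1 (by linarith)
  have hc0 : 0 ≤ Real.sqrt C₃ := Real.sqrt_nonneg _
  have hcard : 0 ≤ (Z.card : ℝ) := Nat.cast_nonneg _
  have hA2 : 0 ≤ A ^ 2 := sq_nonneg _
  calc V ^ 2 * QQ Z L
      ≤ (∑ n ∈ Finset.Ioc N (2 * N), ‖a n‖ ^ 2) * (C₀ * T ^ (ε / 4) * (Real.exp 16 * S0)) := hone
    _ ≤ ((N : ℝ) * A ^ 2) * (C₀ * T ^ (ε / 4) * (Real.exp 16 * S0)) :=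
        mul_le_mul_of_nonneg_right hA (by positivity)
    _ ≤ ((N : ℝ) * A ^ 2) * (C₀ * T ^ (ε / 4) * (Real.exp 16 *
        (C₂ * T ^ (ε / 4) * (Z.card : ℝ) * (C₁ * ((N : ℝ) * L) * (7 * L)) +
        Real.sqrt C₃ * T ^ (ε / 4) * (N : ℝ) ^ (1 / 2 : ℝ) * QQ Z L))) := by
        refine mul_le_mul_of_nonneg_left ?_ (by positivity)
        refine mul_le_mul_of_nonneg_left ?_ (by positivity)
        exact mul_le_mul_of_nonneg_left hall (by positivity)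
    _ = (Real.exp 16 * C₀ * A ^ 2) * (T ^ (ε / 4) * T ^ (ε / 4)) *
        (7 * C₁ * C₂ * ((N : ℝ) ^ 2 * (L : ℝ) ^ 2 * (Z.card : ℝ)) +
          Real.sqrt C₃ * ((N : ℝ) * (N : ℝ) ^ (1 / 2 : ℝ) * QQ Z L)) := by ring
    _ ≤ (Real.exp 16 * C₀ * A ^ 2) * T ^ ε *
        ((7 * C₁ * C₂ + Real.sqrt C₃) * ((N : ℝ) ^ 2 * (L : ℝ) ^ 2 * (Z.card : ℝ) +
          (N : ℝ) ^ (3 / 2 : ℝ) * QQ Z L)) := by
        rw [hN32]
        have hX0 : 0 ≤ (N : ℝ) ^ 2 * (L : ℝ) ^ 2 * (Z.card : ℝ) := by positivity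
        have hY0 : 0 ≤ (N : ℝ) ^ (3 / 2 : ℝ) * QQ Z L := mul_nonneg hN320 hQ0
        have hE0 : 0 ≤ Real.exp 16 * C₀ * A ^ 2 := by positivity
        have hTε : 0 ≤ T ^ ε := Real.rpow_nonneg hT0.le _
        refine mul_le_mul ?_ ?_ ?_ ?_
        · exact mul_le_mul_of_nonneg_left hTT hE0
        · have h71 : 0 ≤ 7 * C₁ * C₂ := by positivity
          nlinarith [mul_nonneg h71 hY0, mul_nonneg hc0 hX0]
        · have h71 : 0 ≤ 7 * C₁ * C₂ := by positivity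
          exact add_nonneg (mul_nonneg h71 hX0) (mul_nonneg hc0 hY0)
        · exact mul_nonneg hE0 hTε
    _ = Real.exp 16 * C₀ * (7 * C₁ * C₂ + Real.sqrt C₃) * A ^ 2 * T ^ ε *
        ((N : ℝ) ^ 2 * (L : ℝ) ^ 2 * (Z.card : ℝ) + (N : ℝ) ^ (3 / 2 : ℝ) * QQ Z L) := by ring

end Pool.Agent.DH
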