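import Pool.Agent.helper5.DH.Spec

/-!
# dh:MPC, the good point near `0`
-/

set_option autoImplicit false

open Complex Metric Set Filter Topology MeasureTheory
open Pool.Agent.helper98.ILF Pool.Agent.helper16.Multibrot
open HY (UD T S hd UN RM VV SG Orb fz)

noncomputable section

namespace DH

theorem MPC_eps (C' C₂ q γ θ κ : ℝ) (hC' : 0 < C') (hC₂ : 0 < C₂) (hq : 0 < q) (hγ1 : γ < 1) (hθ : 0 < θ) (hκ : 0 < κ) :
    ∃ ε : ℝ, 0 < ε ∧ ε ≤ 1 / 4 ∧ C₂ * (2 * ε) ^ q ≤ 1 ∧ 2 * (C' * (C₂ * (2 * ε) ^ q) ^ (1 - γ)) < θ ∧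
      2 * (C' * (C₂ * (2 * ε) ^ q) ^ (1 - γ)) * Real.log (1 / ε) < κ := by
  have hs : 0 < q * (1 - γ) := mul_pos hq (by linarith)
  set K : ℝ := 2 * (C' * (C₂ ^ (1 - γ) * 2 ^ (q * (1 - γ)))) with hK
  have hform : ∀ ε : ℝ, 0 < ε → 2 * (C' * (C₂ * (2 * ε) ^ q) ^ (1 - γ)) = K * ε ^ (q * (1 - γ)) := by
    intro ε hε
    rw [Real.mul_rpow hC₂.le (by positivity), ← Real.rpow_mul (by positivity), Real.mul_rpow (by norm_num) hε.le, hK]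
    ring
  have t1 : Tendsto (fun ε : ℝ => C₂ * (2 * ε) ^ q) (𝓝[>] 0) (𝓝 0) := by
    have h1 : Continuous (fun ε : ℝ => C₂ * (2 * ε) ^ q) :=
      continuous_const.mul ((Real.continuous_rpow_const hq.le).comp (continuous_const.mul continuous_id))
    have h2 := h1.tendsto 0
    have h3 : C₂ * (2 * (0 : ℝ)) ^ q = 0 := by rw [mul_zero, Real.zero_rpow hq.ne', mul_zero]
    rw [h3] at h2
    exact h2.mono_left nhdsWithin_le_nhds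
  have t2 : Tendsto (fun ε : ℝ => K * ε ^ (q * (1 - γ))) (𝓝[>] 0) (𝓝 0) := by
    have h1 : Continuous (fun ε : ℝ => K * ε ^ (q * (1 - γ))) :=
      continuous_const.mul (Real.continuous_rpow_const hs.le)
    have h2 := h1.tendsto 0
    have h3 : K * (0 : ℝ) ^ (q * (1 - γ)) = 0 := by rw [Real.zero_rpow hs.ne', mul_zero]
    rw [h3] at h2
    exact h2.mono_left nhdsWithin_le_nhds
  have t3 : Tendsto (fun ε : ℝ => K * ε ^ (q * (1 - γ)) * Real.log (1 / ε)) (𝓝[>] 0) (𝓝 0) := by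
    have h1 := (tendsto_log_mul_rpow_nhdsGT_zero hs).const_mul (-K)
    rw [mul_zero] at h1
    refine h1.congr (fun x => ?_)
    rw [one_div, Real.log_inv]
    ring
  have e0 : ∀ᶠ ε : ℝ in 𝓝[>] 0, ε ∈ Ioc (0 : ℝ) (1 / 4) := Ioc_mem_nhdsGT (by norm_num)
  have e1 := t1.eventually (gt_mem_nhds (show (0 : ℝ) < 1 by norm_num))
  have e2 := t2.eventually (gt_mem_nhds hθ)
  have e3 := t3.eventually (gt_mem_nhds hκ)
  obtain ⟨ε, h0, h1, h2, h3⟩ := (e0.and (e1.and (e2.and e3))).exists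
  refine ⟨ε, h0.1, h0.2, h1.le, ?_, ?_⟩
  · rw [hform ε h0.1]; exact h2
  · rw [hform ε h0.1]; exact h3

theorem MPC_u (C' γ κ : ℝ) (hγ1 : γ < 1) (hκ : 0 < κ) :
    ∃ u : ℝ, 0 < u ∧ u ≤ 1 ∧ 2 * (C' * u ^ (1 - γ)) < κ := by
  have hs : 0 < 1 - γ := by linarith
  have t2 : Tendsto (fun u : ℝ => 2 * (C' * u ^ (1 - γ))) (𝓝[>] 0) (𝓝 0) := by
    have h1 : Continuous (fun u : ℝ => 2 * (C' * u ^ (1 - γ))) :=
      continuous_const.mul (continuous_const.mul (Real.continuous_rpow_const hs.le))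
    have h2 := h1.tendsto 0
    have h3 : 2 * (C' * (0 : ℝ) ^ (1 - γ)) = 0 := by rw [Real.zero_rpow hs.ne', mul_zero, mul_zero]
    rw [h3] at h2
    exact h2.mono_left nhdsWithin_le_nhds
  have e0 : ∀ᶠ u : ℝ in 𝓝[>] 0, u ∈ Ioc (0 : ℝ) 1 := Ioc_mem_nhdsGT (by norm_num)
  obtain ⟨u, h0, h1⟩ := (e0.and (t2.eventually (gt_mem_nhds hκ))).exists
  exact ⟨u, h0.1, h0.2, h1⟩

theorem MPC_L (C' κ : ℝ) (hC' : 0 < C') (hκ : 0 < κ) : ∃ L : ℕ, 1 ≤ L ∧ 2 * C' / (L : ℝ) < κ := by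
  obtain ⟨N, hN⟩ := exists_nat_gt (2 * C' / κ)
  refine ⟨N + 1, by omega, ?_⟩
  have h1 : (0 : ℝ) < (N : ℝ) + 1 := by positivity
  push_cast
  rw [div_lt_iff₀ h1]
  rw [div_lt_iff₀ hκ] at hN
  nlinarith

theorem MPC_neglog (P θ β : ℝ) (hP : 0 < P) (h : -Real.log P ≤ β) (hβ : β < θ) : Real.exp (-θ) < P := by
  have h1 : -θ < Real.log P := by linarith
  calc Real.exp (-θ) < Real.exp (Real.log P) := Real.exp_lt_exp.2 h1
    _ = P := Real.exp_log hP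

theorem MPC (hMPA : MPA_stmt) (hDIQ : DIQ_stmt) (hBLS : BLS_stmt) (hLGS : LGS_stmt) (hETB : ETB_stmt)
    (hBTP : BTP_stmt) : MPC_stmt := by
  intro n r M C γ hn hr hM hC hγ0 hγ1 hPSP θ hθ
  obtain ⟨C', hC', hB⟩ := hBLS C γ hC hγ0 hγ1
  obtain ⟨q, C₂, hq, hC₂, hE⟩ := hETB
  have hp0 : (0 : ℝ) < (1 / 2 : ℝ) ^ M := by positivity
  have hp1 : (1 / 2 : ℝ) ^ M ≤ 1 / 2 := by
    calc (1 / 2 : ℝ) ^ M ≤ (1 / 2 : ℝ) ^ 1 := pow_le_pow_of_le_one (by norm_num) (by norm_num) hM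
      _ = 1 / 2 := by norm_num
  have hp2 : (1 / 2 : ℝ) ^ (M + 2) = (1 / 2 : ℝ) ^ M / 4 := by rw [pow_add]; norm_num; ring
  obtain ⟨h0, hh0⟩ : ∃ h0 : ℝ, h0 = (1 / 2 : ℝ) ^ M := ⟨_, rfl⟩
  rw [← hh0] at hp0 hp1
  obtain ⟨R₁, hR₁⟩ : ∃ R₁ : ℝ, R₁ = 1 - (1 / 2 : ℝ) ^ (M + 2) := ⟨_, rfl⟩
  have hR₁' : R₁ = 1 - h0 / 4 := by rw [hR₁, hp2, hh0]
  obtain ⟨R₂, hR₂⟩ : ∃ R₂ : ℝ, R₂ = 1 - h0 / 2 := ⟨_, rfl⟩
  have hR12 : R₂ < R₁ := by rw [hR₁', hR₂]; linarith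
  have hR2t : 1 - h0 < R₂ := by rw [hR₂]; linarith
  have hR2l : 3 / 4 ≤ R₂ := by rw [hR₂]; linarith
  have hR2u : R₂ < 1 := by rw [hR₂]; linarith
  have hR1u : R₁ < 1 := by rw [hR₁']; linarith
  have hR1p : 0 < R₁ := by linarith
  have ht0 : 0 < 1 - h0 := by linarith
  obtain ⟨c₁, hc₁⟩ : ∃ c₁ : ℝ, c₁ = Real.log (R₂ / (1 - h0)) := ⟨_, rfl⟩
  have hc₁p : 0 < c₁ := by
    rw [hc₁]
    exact Real.log_pos (by rw [lt_div_iff₀ ht0]; linarith)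
  obtain ⟨ε, hε, hε4, hU, hβ, hβL⟩ := MPC_eps C' C₂ q γ θ (θ * (c₁ / 4)) hC' hC₂ hq hγ1 hθ (by positivity)
  obtain ⟨β, hβdef⟩ : ∃ β : ℝ, β = 2 * (C' * (C₂ * (2 * ε) ^ q) ^ (1 - γ)) := ⟨_, rfl⟩
  rw [← hβdef] at hβ hβL
  have hβ0 : 0 ≤ β := by rw [hβdef]; positivity
  obtain ⟨L, hL⟩ : ∃ L : ℝ, L = Real.log (1 / ε) := ⟨_, rfl⟩
  rw [← hL] at hβL
  have hLp : 0 < L := by
    rw [hL]
    refine Real.log_pos ?_
    rw [lt_div_iff₀ hε]; linarith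
  have hκ : 0 < min (1 / 4 : ℝ) (c₁ / (4 * L)) := lt_min (by norm_num) (by positivity)
  obtain ⟨u, hu0, hu1, hu2⟩ := MPC_u C' γ _ hγ1 hκ
  obtain ⟨N, hN1, hN2⟩ := MPC_L C' _ hC' hκ
  have hu2a := lt_of_lt_of_le hu2 (min_le_left _ _)
  have hu2b := lt_of_lt_of_le hu2 (min_le_right _ _)
  have hN2a := lt_of_lt_of_le hN2 (min_le_left _ _)
  have hN2b := lt_of_lt_of_le hN2 (min_le_right _ _)
  have hNp : (0 : ℝ) < (N : ℝ) := by exact_mod_cast hN1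
  obtain ⟨a, ha⟩ : ∃ a : ℝ, a = (R₁ ^ 2 - R₂ ^ 2) / R₁ * (Real.exp (-(1 + (N : ℝ)))) ^ (n - 1) := ⟨_, rfl⟩
  have hsq : 0 < R₁ ^ 2 - R₂ ^ 2 := by nlinarith
  have hap : 0 < a := by rw [ha]; positivity
  obtain ⟨A, hA⟩ : ∃ A : ℝ, A = (1 / a) ^ 2 := ⟨_, rfl⟩
  have hAp : 0 < A := by rw [hA]; positivity
  obtain ⟨X, hX⟩ : ∃ X : ℝ, X = 8 * A * L / c₁ + 1 := ⟨_, rfl⟩
  have hXp : 0 < X := by rw [hX]; positivity
  have heX : Real.exp (-X) < 1 := by rw [Real.exp_lt_one_iff]; linarith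
  have heX0 : 0 < Real.exp (-X) := Real.exp_pos _
  obtain ⟨ρ, hρ⟩ : ∃ ρ : ℝ, ρ = Real.sqrt (1 - Real.exp (-X)) := ⟨_, rfl⟩
  have hρ0 : 0 < ρ := by rw [hρ]; exact Real.sqrt_pos.2 (by linarith)
  have hρsq : ρ ^ 2 = 1 - Real.exp (-X) := by rw [hρ]; exact Real.sq_sqrt (by linarith)
  have hρ1 : ρ < 1 := by nlinarith
  refine ⟨ε, hε, hε4, ρ, hρ0, hρ1, ?_⟩
  intro c hc hd Φ b k p t hFA hAR
  obtain ⟨hjj, hbtp⟩ := hBTP n c Φ b hFA.tow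
  obtain ⟨-, hyv, hmon, hbt⟩ := hbtp k t p hFA.mem
  -- the numbers g i
  have hPS := hPSP c hc hd Φ b k p t hFA
  rw [← hR₁] at hPS
  have hREL : ∀ (B : ℝ) (i : ℕ), i ∈ REL Φ n c k t B → i < t := by
    intro B i hi
    exact Finset.mem_range.1 (Finset.mem_filter.1 hi).1
  have hRELmono : REL Φ n c k t (2 * ε) ⊆ REL Φ n c k t R₁ := by
    intro i hi
    rw [REL, Finset.mem_filter] at hi ⊢
    exact ⟨hi.1, lt_of_lt_of_le hi.2 (by linarith)⟩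
  obtain ⟨g, hg⟩ : ∃ g : ℕ → ℝ, g = fun i => 1 - ‖yv Φ n c (k + t - i) p i‖ := ⟨_, rfl⟩
  have hg01 : ∀ i ∈ REL Φ n c k t R₁, 0 < g i ∧ g i ≤ 1 := by
    intro i hi
    have h1 := (hyv (k + t - i) i).1
    rw [hg]
    have h2 : ‖yv Φ n c (k + t - i) p i‖ < 1 := by
      have := h1
      rw [HY.UD, mem_ball_zero_iff] at this
      exact this
    exact ⟨by simp only []; linarith, by simp only []; linarith [norm_nonneg (yv Φ n c (k + t - i) p i)]⟩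
  have hsum : ∀ v : ℝ, 0 < v → v ≤ 1 →
      ∑ i ∈ (REL Φ n c k t R₁).filter (fun i => g i ≤ v), g i ≤ C' * v ^ (1 - γ) := by
    refine hB (REL Φ n c k t R₁) g hg01 ?_
    intro s hs0 hs1
    have := hPS s hs0 hs1
    rw [hg]
    exact this
  -- values at 0
  have hval : ∀ i, i < t → bt Φ n c k t p i 0 = yv Φ n c (k + t - i) p i := fun i hi => (hbt i hi.le).2.2.1
  have hhalf : ∀ i, i < t → 1 / 2 ≤ ‖bt Φ n c k t p i 0‖ ∧ ‖bt Φ n c k t p i 0‖ ≤ 1 := by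
    intro i hi
    rw [hval i hi]
    have h1 := (hmon k (k + t - i) i (by omega)).2
    have h2 := hFA.far i hi
    have h3 := (hyv (k + t - i) i).1
    rw [HY.UD, mem_ball_zero_iff] at h3
    rw [← hh0] at h2
    exact ⟨by linarith, h3.le⟩
  have hgv : ∀ i, i < t → 1 - ‖bt Φ n c k t p i 0‖ = g i := by
    intro i hi
    rw [hval i hi, hg]
  have hUp : 0 < C₂ * (2 * ε) ^ q := by positivity
  -- the product P
  obtain ⟨P, hP⟩ : ∃ P : ℂ → ℂ, P = fun w => ∏ i ∈ REL Φ n c k t (2 * ε), bt Φ n c k t p i w := ⟨_, rfl⟩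
  have hP0 : P 0 ≠ 0 ∧ -Real.log ‖P 0‖ ≤ β := by
    have h1 := hLGS (REL Φ n c k t (2 * ε)) (fun i => bt Φ n c k t p i 0) (fun i hi => hhalf i (hREL _ i hi))
    rw [hP]
    refine ⟨h1.1, h1.2.trans ?_⟩
    rw [hβdef]
    have h2 : ∑ i ∈ REL Φ n c k t (2 * ε), (1 - ‖bt Φ n c k t p i 0‖) = ∑ i ∈ REL Φ n c k t (2 * ε), g i :=
      Finset.sum_congr rfl (fun i hi => hgv i (hREL _ i hi))
    rw [h2]
    have h3 : ∑ i ∈ REL Φ n c k t (2 * ε), g i ≤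
        ∑ i ∈ (REL Φ n c k t R₁).filter (fun i => g i ≤ C₂ * (2 * ε) ^ q), g i := by
      refine Finset.sum_le_sum_of_subset_of_nonneg ?_ ?_
      · intro i hi
        rw [Finset.mem_filter]
        refine ⟨hRELmono hi, ?_⟩
        have h4 := hE n c Φ b M k p t hM hFA hAR (2 * ε) (by linarith) (by linarith) i hi
        rw [hg]
        exact h4
      · intro i hi _
        exact (hg01 i (Finset.mem_filter.1 hi).1).1.le
    have h5 := hsum _ hUp hU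
    linarith
  -- F
  have hFt := hbt t le_rfl
  have hkt : k + t - t = k := by omega
  rw [hkt] at hFt
  obtain ⟨hFd, hFm, hF0, -⟩ := hFt
  have hFlt : ‖bt Φ n c k t p t 0‖ < 1 - h0 := by
    rw [hF0, hh0]
    linarith [hFA.near]
  rcases le_or_gt ‖bt Φ n c k t p t 0‖ ε with hcase | hcase
  · refine ⟨0, by rw [norm_zero]; exact hρ0.le, hcase, ?_⟩
    have h1 := MPC_neglog ‖P 0‖ θ β (norm_pos_iff.2 hP0.1) hP0.2 hβ
    rw [hP] at h1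
    exact h1
  -- the main case
  by_contra hcon
  push Not at hcon
  -- Q
  obtain ⟨I₁, hI₁⟩ : ∃ I₁ : Finset ℕ, I₁ = (REL Φ n c k t R₁).filter (fun i => g i ≤ u) := ⟨_, rfl⟩
  obtain ⟨I₂, hI₂⟩ : ∃ I₂ : Finset ℕ, I₂ = (REL Φ n c k t R₁).filter (fun i => ¬ g i ≤ u) := ⟨_, rfl⟩
  have hI₁t : ∀ i ∈ I₁, i < t := by
    intro i hi; rw [hI₁] at hi; exact hREL _ i (Finset.mem_filter.1 hi).1
  have hI₂t : ∀ i ∈ I₂, i < t := by
    intro i hi; rw [hI₂] at hi; exact hREL _ i (Finset.mem_filter.1 hi).1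
  obtain ⟨Q₁, hQ₁⟩ : ∃ Q₁ : ℂ → ℂ, Q₁ = fun w => ∏ i ∈ I₁, bt Φ n c k t p i w := ⟨_, rfl⟩
  obtain ⟨Q₂, hQ₂⟩ : ∃ Q₂ : ℂ → ℂ, Q₂ = fun w => ∏ i ∈ I₂, bt Φ n c k t p i w := ⟨_, rfl⟩
  obtain ⟨Q, hQ⟩ : ∃ Q : ℂ → ℂ, Q = fun w => Q₁ w ^ N * Q₂ w := ⟨_, rfl⟩
  have hble : ∀ i, i < t → ∀ w ∈ UD, ‖bt Φ n c k t p i w‖ ≤ 1 := by
    intro i hi w hw
    have h1 := (hbt i hi.le).2.1 hw
    rw [HY.UD, mem_ball_zero_iff] at h1
    exact h1.le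
  have hprodle : ∀ (I : Finset ℕ), (∀ i ∈ I, i < t) → ∀ w ∈ UD, ‖∏ i ∈ I, bt Φ n c k t p i w‖ ≤ 1 := by
    intro I hI w hw
    rw [norm_prod]
    exact Finset.prod_le_one (fun i _ => norm_nonneg _) (fun i hi => hble i (hI i hi) w hw)
  have hproddiff : ∀ (I : Finset ℕ), (∀ i ∈ I, i < t) → DifferentiableOn ℂ (fun w => ∏ i ∈ I, bt Φ n c k t p i w) UD := by
    intro I hI
    exact DifferentiableOn.fun_finsetProd (fun i hi => (hbt i (hI i hi).le).1)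
  have hQ₁le : ∀ w ∈ UD, ‖Q₁ w‖ ≤ 1 := by intro w hw; rw [hQ₁]; exact hprodle I₁ hI₁t w hw
  have hQ₂le : ∀ w ∈ UD, ‖Q₂ w‖ ≤ 1 := by intro w hw; rw [hQ₂]; exact hprodle I₂ hI₂t w hw
  have hPle : ∀ w ∈ UD, ‖P w‖ ≤ 1 := by intro w hw; rw [hP]; exact hprodle _ (hREL _) w hw
  have hQn : ∀ w, ‖Q w‖ = ‖Q₁ w‖ ^ N * ‖Q₂ w‖ := by
    intro w; rw [hQ]; simp only [norm_mul, norm_pow]
  have hQle : ∀ w ∈ UD, ‖Q w‖ ≤ 1 := by
    intro w hw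
    rw [hQn]
    exact mul_le_one₀ (pow_le_one₀ (norm_nonneg _) (hQ₁le w hw)) (norm_nonneg _) (hQ₂le w hw)
  have hPd : DifferentiableOn ℂ P UD := by rw [hP]; exact hproddiff _ (hREL _)
  have hQd : DifferentiableOn ℂ Q UD := by
    rw [hQ]
    refine DifferentiableOn.mul (DifferentiableOn.pow ?_ N) ?_
    · rw [hQ₁]; exact hproddiff _ hI₁t
    · rw [hQ₂]; exact hproddiff _ hI₂t
  have h0UD : (0 : ℂ) ∈ UD := by rw [HY.UD]; exact mem_ball_self one_pos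
  -- Q at 0
  have hQ₁0 : Q₁ 0 ≠ 0 ∧ -Real.log ‖Q₁ 0‖ ≤ 2 * (C' * u ^ (1 - γ)) := by
    have h1 := hLGS I₁ (fun i => bt Φ n c k t p i 0) (fun i hi => hhalf i (hI₁t i hi))
    rw [hQ₁]
    refine ⟨h1.1, h1.2.trans ?_⟩
    have h2 : ∑ i ∈ I₁, (1 - ‖bt Φ n c k t p i 0‖) = ∑ i ∈ I₁, g i :=
      Finset.sum_congr rfl (fun i hi => hgv i (hI₁t i hi))
    rw [h2, hI₁]
    have h3 := hsum u hu0 hu1
    linarith
  have hQ₂0 : Q₂ 0 ≠ 0 ∧ -Real.log ‖Q₂ 0‖ ≤ 2 * C' := by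
    have h1 := hLGS I₂ (fun i => bt Φ n c k t p i 0) (fun i hi => hhalf i (hI₂t i hi))
    rw [hQ₂]
    refine ⟨h1.1, h1.2.trans ?_⟩
    have h2 : ∑ i ∈ I₂, (1 - ‖bt Φ n c k t p i 0‖) = ∑ i ∈ I₂, g i :=
      Finset.sum_congr rfl (fun i hi => hgv i (hI₂t i hi))
    rw [h2]
    have h3 : ∑ i ∈ I₂, g i ≤ ∑ i ∈ (REL Φ n c k t R₁).filter (fun i => g i ≤ 1), g i := by
      refine Finset.sum_le_sum_of_subset_of_nonneg ?_ ?_
      · intro i hi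
        rw [hI₂] at hi
        rw [Finset.mem_filter]
        exact ⟨(Finset.mem_filter.1 hi).1, (hg01 i (Finset.mem_filter.1 hi).1).2⟩
      · intro i hi _
        exact (hg01 i (Finset.mem_filter.1 hi).1).1.le
    have h5 := hsum 1 one_pos le_rfl
    rw [Real.one_rpow, mul_one] at h5
    linarith
  have hQ10p : 0 < ‖Q₁ 0‖ := norm_pos_iff.2 hQ₁0.1
  have hQ20p : 0 < ‖Q₂ 0‖ := norm_pos_iff.2 hQ₂0.1
  have hQ0p : 0 < ‖Q 0‖ := by rw [hQn]; positivity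
  have hQlog : -Real.log ‖Q 0‖ ≤ N * (2 * (C' * u ^ (1 - γ))) + 2 * C' := by
    rw [hQn, Real.log_mul (by positivity) (by positivity), Real.log_pow]
    have h1 := hQ₁0.2
    have h2 := hQ₂0.2
    have h3 : (N : ℝ) * (-Real.log ‖Q₁ 0‖) ≤ N * (2 * (C' * u ^ (1 - γ))) := mul_le_mul_of_nonneg_left h1 hNp.le
    linarith
  have hQdiv : -Real.log ‖Q 0‖ / N ≤ 2 * (C' * u ^ (1 - γ)) + 2 * C' / N := by
    rw [div_le_iff₀ hNp, add_mul, div_mul_cancel₀ _ hNp.ne']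
    linarith
  have hQexp : Real.exp (-(N : ℝ)) < ‖Q 0‖ := by
    refine MPC_neglog _ _ (N * (1 / 2)) hQ0p ?_ (by linarith)
    have h1 : -Real.log ‖Q 0‖ / N ≤ 1 / 2 := by linarith
    rw [div_le_iff₀ hNp] at h1
    linarith
  -- H1
  have hH1 : ∀ w ∈ UD, ‖bt Φ n c k t p t w‖ ≤ R₂ → Real.exp (-(N : ℝ)) ≤ ‖Q w‖ →
      1 ≤ A * (‖deriv (bt Φ n c k t p t) w‖ * (1 - ‖w‖ ^ 2)) ^ 2 := by
    intro w hw hFw hQw
    have hD := hDIQ n c Φ b hFA.tow k t p hFA.mem R₁ w hR1p hR1u.le hw (lt_of_le_of_lt hFw hR12)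
    rw [hQn] at hQw
    have q1 : ‖Q₁ w‖ ^ N ≤ 1 := pow_le_one₀ (norm_nonneg _) (hQ₁le w hw)
    have q2 : Real.exp (-(N : ℝ)) ≤ ‖Q₂ w‖ := by
      refine hQw.trans ?_
      calc ‖Q₁ w‖ ^ N * ‖Q₂ w‖ ≤ 1 * ‖Q₂ w‖ := mul_le_mul_of_nonneg_right q1 (norm_nonneg _)
        _ = ‖Q₂ w‖ := one_mul _
    have q3 : Real.exp (-(1 : ℝ)) ^ N ≤ ‖Q₁ w‖ ^ N := by
      rw [← Real.exp_nat_mul]
      have e1 : (N : ℝ) * -(1 : ℝ) = -(N : ℝ) := by ring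
      rw [e1]
      refine hQw.trans ?_
      calc ‖Q₁ w‖ ^ N * ‖Q₂ w‖ ≤ ‖Q₁ w‖ ^ N * 1 := mul_le_mul_of_nonneg_left (hQ₂le w hw) (by positivity)
        _ = ‖Q₁ w‖ ^ N := mul_one _
    have q4 : Real.exp (-(1 : ℝ)) ≤ ‖Q₁ w‖ := le_of_pow_le_pow_left₀ (by omega) (norm_nonneg _) q3
    have q5 : ∏ i ∈ REL Φ n c k t R₁, ‖bt Φ n c k t p i w‖ = ‖Q₁ w‖ * ‖Q₂ w‖ := by
      rw [hQ₁, hQ₂]
      simp only [norm_prod]
      rw [hI₁, hI₂]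
      exact (Finset.prod_filter_mul_prod_filter_not (REL Φ n c k t R₁) (fun i => g i ≤ u) _).symm
    have q6 : Real.exp (-(1 + (N : ℝ))) ≤ ‖Q₁ w‖ * ‖Q₂ w‖ := by
      have e2 : -(1 + (N : ℝ)) = -(1 : ℝ) + -(N : ℝ) := by ring
      rw [e2, Real.exp_add]
      exact mul_le_mul q4 q2 (Real.exp_pos _).le (norm_nonneg _)
    rw [q5] at hD
    have q7 : a ≤ ‖deriv (bt Φ n c k t p t) w‖ * (1 - ‖w‖ ^ 2) := by
      refine le_trans ?_ hD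
      rw [ha]
      have q8 : (R₁ ^ 2 - R₂ ^ 2) / R₁ ≤ (R₁ ^ 2 - ‖bt Φ n c k t p t w‖ ^ 2) / R₁ := by
        refine div_le_div_of_nonneg_right ?_ hR1p.le
        have := norm_nonneg (bt Φ n c k t p t w)
        nlinarith
      have q9 : Real.exp (-(1 + (N : ℝ))) ^ (n - 1) ≤ (‖Q₁ w‖ * ‖Q₂ w‖) ^ (n - 1) :=
        pow_le_pow_left₀ (Real.exp_pos _).le q6 _
      have q10 : 0 ≤ (R₁ ^ 2 - ‖bt Φ n c k t p t w‖ ^ 2) / R₁ := le_trans (by positivity) q8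
      exact mul_le_mul q8 q9 (by positivity) q10
    have q11 : a ^ 2 ≤ (‖deriv (bt Φ n c k t p t) w‖ * (1 - ‖w‖ ^ 2)) ^ 2 := pow_le_pow_left₀ hap.le q7 2
    have q12 : A * a ^ 2 = 1 := by rw [hA]; field_simp
    calc (1 : ℝ) = A * a ^ 2 := q12.symm
      _ ≤ _ := mul_le_mul_of_nonneg_left q11 hAp.le
  -- H2
  have hH2 : ∀ w ∈ UD, ‖w‖ ≤ ρ → ‖bt Φ n c k t p t w‖ = ε → ‖P w‖ ≤ Real.exp (-θ) := by
    intro w _ hwρ hFw
    rw [hP]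
    exact hcon w hwρ hFw.le
  have hfin := hMPA (bt Φ n c k t p t) P Q A ρ ε R₂ θ (N : ℝ) hFd hPd hQd hFm hPle hQle hAp hρ0 hρ1 hε
    (by linarith) hR2u hθ hNp hH1 hH2 hcase (hFlt.trans hR2t) hP0.1 hQexp
  -- the contradiction
  have hlogρ : Real.log (1 / (1 - ρ ^ 2)) = X := by
    rw [hρsq, sub_sub_cancel, one_div, ← Real.exp_neg, neg_neg, Real.log_exp]
  rw [hlogρ] at hfin
  have f1 : c₁ ≤ Real.log (R₂ / ‖bt Φ n c k t p t 0‖) := by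
    rw [hc₁]
    refine Real.log_le_log (by positivity) ?_
    exact div_le_div_of_nonneg_left (by linarith) (by linarith) hFlt.le
  have f2 : Real.log (R₂ / ε) ≤ L := by
    rw [hL]
    refine Real.log_le_log (by positivity) ?_
    exact div_le_div_of_nonneg_right hR2u.le hε.le
  have f3 : 0 ≤ Real.log (R₂ / ε) := by
    refine Real.log_nonneg ?_
    rw [le_div_iff₀ hε]; linarith
  have f4 : -Real.log ‖P 0‖ / θ ≤ β / θ := div_le_div_of_nonneg_right hP0.2 hθ.le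
  have hS0 : 0 ≤ β / θ + (2 * (C' * u ^ (1 - γ)) + 2 * C' / N) + 2 * A / X := by positivity
  have f5 : Real.log (R₂ / ‖bt Φ n c k t p t 0‖) ≤
      L * (β / θ + (2 * (C' * u ^ (1 - γ)) + 2 * C' / N) + 2 * A / X) := by
    refine hfin.trans ?_
    calc Real.log (R₂ / ε) * (-Real.log ‖P 0‖ / θ + -Real.log ‖Q 0‖ / N + 2 * A / X)
        ≤ Real.log (R₂ / ε) * (β / θ + (2 * (C' * u ^ (1 - γ)) + 2 * C' / N) + 2 * A / X) :=
          mul_le_mul_of_nonneg_left (by linarith) f3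
      _ ≤ _ := mul_le_mul_of_nonneg_right f2 hS0
  have g1 : L * (β / θ) < c₁ / 4 := by
    have : L * (β / θ) = β * L / θ := by ring
    rw [this, div_lt_iff₀ hθ]
    linarith
  have g2 : L * (2 * (C' * u ^ (1 - γ))) < c₁ / 4 := by
    have h1 := mul_lt_mul_of_pos_left hu2b hLp
    have h2 : L * (c₁ / (4 * L)) = c₁ / 4 := by field_simp
    rw [h2] at h1
    exact h1
  have g3 : L * (2 * C' / N) < c₁ / 4 := by
    have h1 := mul_lt_mul_of_pos_left hN2b hLp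
    have h2 : L * (c₁ / (4 * L)) = c₁ / 4 := by field_simp
    rw [h2] at h1
    exact h1
  have g4 : L * (2 * A / X) < c₁ / 4 := by
    have h1 : L * (2 * A / X) = 2 * A * L / X := by ring
    rw [h1, div_lt_iff₀ hXp, hX]
    have h2 : c₁ / 4 * (8 * A * L / c₁ + 1) = 2 * A * L + c₁ / 4 := by field_simp; ring
    rw [h2]
    linarith
  have g5 : L * (β / θ + (2 * (C' * u ^ (1 - γ)) + 2 * C' / N) + 2 * A / X) =
      L * (β / θ) + L * (2 * (C' * u ^ (1 - γ))) + L * (2 * C' / N) + L * (2 * A / X) := by ring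
  rw [g5] at f5
  linarith

end DH
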